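import Mathlib

/-!
# Assignments from a nonzero determinant of characters

`P` is a finite index set, `θ i` is a primitive `m i`-th root of unity, the `m i` are pairwise
coprime, and `1 ≤ a i ≤ m i`.  On `L = ∏ a i` consecutive integers `j` the functions
`∏ i, θ_i^(g_i j)` (`0 ≤ g_i < a_i`) form a nonsingular matrix (Vandermonde).  Replacing
`z^t` by `z^t - 1` for `t ≠ 0` is an invertible change of basis.  A nonzero term of the
determinant gives a bijection `j ↦ g(j)` with `g(j)_i = 0` whenever `c_i θ_i^j = 1`.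
-/

namespace Pool.Agent.Q239.MN

open Finset

variable {ι : Type*} [Fintype ι] [DecidableEq ι]

/-- `z^t - 1` for `t ≠ 0`, and `1` for `t = 0`. -/
noncomputable def psi (z : ℂ) (t : ℕ) : ℂ := if t = 0 then 1 else z ^ t - 1

lemma psi_zero (z : ℂ) : psi z 0 = 1 := by simp [psi]

lemma psi_one_ne {t : ℕ} (h : psi 1 t ≠ 0) : t = 0 := by
  by_contra ht
  exact h (by simp [psi, ht])

lemma pow_eq_psi (z : ℂ) (t : ℕ) : z ^ t = psi z t + (if t = 0 then 0 else 1) := by
  by_cases ht : t = 0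
  · simp [psi, ht]
  · simp [psi, ht]

/-- the characters `∏ θ_i^{g_i}` are distinct -/
lemma omega_injective {m a : ι → ℕ} (hm : Pairwise (fun i j => Nat.Coprime (m i) (m j)))
    (ham : ∀ i, a i ≤ m i) {θ : ι → ℂ} (hθ : ∀ i, IsPrimitiveRoot (θ i) (m i)) :
    Function.Injective (fun g : (∀ i, Fin (a i)) => ∏ i, θ i ^ (g i : ℕ)) := by
  intro g h hgh
  funext i
  have hlt : (g i : ℕ) < m i := lt_of_lt_of_le (g i).2 (ham i)
  have hlt' : (h i : ℕ) < m i := lt_of_lt_of_le (h i).2 (ham i)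
  set R : ℕ := ∏ k ∈ univ.erase i, m k with hR
  have hcop : Nat.Coprime R (m i) := by
    apply Nat.Coprime.prod_left
    intro k hk
    exact hm (Finset.ne_of_mem_erase hk)
  have key : ∀ f : (∀ i, Fin (a i)),
      (∏ i, θ i ^ (f i : ℕ)) ^ R = (θ i ^ R) ^ (f i : ℕ) := by
    intro f
    rw [← Finset.mul_prod_erase univ _ (mem_univ i), mul_pow]
    have : (∏ x ∈ univ.erase i, θ x ^ (f x : ℕ)) ^ R = 1 := by
      rw [← Finset.prod_pow]
      apply Finset.prod_eq_one
      intro k hk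
      have hdvd : m k ∣ R := Finset.dvd_prod_of_mem _ hk
      obtain ⟨c, hc⟩ := hdvd
      rw [hc, ← pow_mul, mul_comm ((f k : ℕ)), mul_assoc, pow_mul, (hθ k).pow_eq_one, one_pow]
    rw [this, mul_one, ← pow_mul, ← pow_mul, mul_comm]
  have hprim : IsPrimitiveRoot (θ i ^ R) (m i) := (hθ i).pow_of_coprime R hcop
  have h1 : (θ i ^ R) ^ (g i : ℕ) = (θ i ^ R) ^ (h i : ℕ) := by
    rw [← key g, ← key h]
    exact congrArg (· ^ R) hgh
  exact Fin.ext (hprim.pow_inj hlt hlt' h1)

/-- The core assignment lemma. -/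
theorem assign {m a : ι → ℕ} (hm : Pairwise (fun i j => Nat.Coprime (m i) (m j)))
    (ham : ∀ i, a i ≤ m i) (ha : ∀ i, 1 ≤ a i) {θ c : ι → ℂ}
    (hθ : ∀ i, IsPrimitiveRoot (θ i) (m i)) (hc : ∀ i, c i ≠ 0) {L : ℕ}
    (hL : L = ∏ i, a i) :
    ∃ σ : Fin L ≃ (∀ i, Fin (a i)), ∀ (j : Fin L) (i : ι),
      c i * θ i ^ (j : ℕ) = 1 → ((σ j) i : ℕ) = 0 := by
  classical
  have hcard : Fintype.card (∀ i, Fin (a i)) = L := by
    rw [Fintype.card_pi, hL]
    simp
  let e : Fin L ≃ (∀ i, Fin (a i)) := (Fintype.equivFinOfCardEq hcard).symm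
  let Mg : Fin L → (∀ i, Fin (a i)) → ℂ := fun j g => ∏ i, psi (c i * θ i ^ (j : ℕ)) (g i)
  let M : Matrix (Fin L) (Fin L) ℂ := fun j k => Mg j (e k)
  -- the expansion of the monomials
  have hexp : ∀ g : (∀ i, Fin (a i)), ∃ w : Fin L → ℂ, ∀ j : Fin L,
      ∏ i, (c i * θ i ^ (j : ℕ)) ^ (g i : ℕ) = ∑ k, w k * M j k := by
    intro g
    -- sum over subsets
    let gz : Finset ι → (∀ i, Fin (a i)) := fun S i => if i ∈ S then ⟨0, ha i⟩ else g i
    have h1 : ∀ j : Fin L, ∏ i, (c i * θ i ^ (j : ℕ)) ^ (g i : ℕ)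
        = ∑ S ∈ (univ : Finset ι).powerset,
          (∏ i ∈ S, (if (g i : ℕ) = 0 then (0 : ℂ) else 1)) * Mg j (gz S) := by
      intro j
      have h2 : ∏ i, (c i * θ i ^ (j : ℕ)) ^ (g i : ℕ)
          = ∏ i, ((if (g i : ℕ) = 0 then (0 : ℂ) else 1) + psi (c i * θ i ^ (j : ℕ)) (g i)) := by
        apply Finset.prod_congr rfl
        intro i _
        rw [pow_eq_psi, add_comm]
      rw [h2, Finset.prod_add]
      apply Finset.sum_congr rfl
      intro S _
      congr 1
      show _ = ∏ i, psi (c i * θ i ^ (j : ℕ)) (gz S i)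
      rw [← Finset.prod_sdiff (Finset.subset_univ S)]
      have h3 : ∏ i ∈ S, psi (c i * θ i ^ (j : ℕ)) (gz S i) = 1 := by
        apply Finset.prod_eq_one
        intro i hi
        simp [gz, hi, psi_zero]
      rw [h3, mul_one]
      apply Finset.prod_congr rfl
      intro i hi
      have : i ∉ S := (Finset.mem_sdiff.1 hi).2
      simp [gz, this]
    refine ⟨fun k => ∑ S ∈ (univ : Finset ι).powerset with gz S = e k,
      (∏ i ∈ S, (if (g i : ℕ) = 0 then (0 : ℂ) else 1)), ?_⟩
    intro j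
    rw [h1 j]
    have h4 : ∀ k : Fin L, (∑ S ∈ (univ : Finset ι).powerset with gz S = e k,
        (∏ i ∈ S, (if (g i : ℕ) = 0 then (0 : ℂ) else 1))) * M j k
        = ∑ S ∈ (univ : Finset ι).powerset with e.symm (gz S) = k,
        (∏ i ∈ S, (if (g i : ℕ) = 0 then (0 : ℂ) else 1)) * Mg j (gz S) := by
      intro k
      rw [Finset.sum_mul]
      have hfil : (univ : Finset ι).powerset.filter (fun S => gz S = e k)
          = (univ : Finset ι).powerset.filter (fun S => e.symm (gz S) = k) := by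
        apply Finset.filter_congr
        intro S _
        rw [Equiv.symm_apply_eq]
      rw [hfil]
      apply Finset.sum_congr rfl
      intro S hS
      have : e.symm (gz S) = k := (Finset.mem_filter.1 hS).2
      have h5 : gz S = e k := by rw [← this]; simp
      show _ * Mg j (e k) = _
      rw [h5]
    rw [Finset.sum_congr rfl (fun k _ => h4 k)]
    rw [Finset.sum_fiberwise]
  -- the determinant is not zero
  have hdet : M.det ≠ 0 := by
    intro h0
    obtain ⟨v, hv, hv0⟩ := Matrix.exists_vecMul_eq_zero_iff.2 h0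
    apply hv
    let ω : Fin L → ℂ := fun k => ∏ i, θ i ^ ((e k) i : ℕ)
    have hω : Function.Injective ω := (omega_injective hm ham hθ).comp e.injective
    have hvd : (Matrix.vandermonde ω).det ≠ 0 := Matrix.det_vandermonde_ne_zero_iff.2 hω
    apply Matrix.eq_zero_of_mulVec_eq_zero hvd
    funext k
    obtain ⟨w, hw⟩ := hexp (e k)
    have h1 : ∑ j, v j * ∏ i, (c i * θ i ^ (j : ℕ)) ^ ((e k) i : ℕ) = 0 := by
      have h2 : ∀ l, ∑ j, v j * M j l = 0 := by
        intro l
        have := congrFun hv0 l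
        simpa [Matrix.vecMul, dotProduct] using this
      calc ∑ j, v j * ∏ i, (c i * θ i ^ (j : ℕ)) ^ ((e k) i : ℕ)
          = ∑ j, v j * ∑ l, w l * M j l := by
            apply Finset.sum_congr rfl
            intro j _
            rw [hw j]
        _ = ∑ j, ∑ l, w l * (v j * M j l) := by
            apply Finset.sum_congr rfl
            intro j _
            rw [Finset.mul_sum]
            apply Finset.sum_congr rfl
            intro l _
            ring
        _ = ∑ l, w l * ∑ j, v j * M j l := by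
            rw [Finset.sum_comm]
            apply Finset.sum_congr rfl
            intro l _
            rw [Finset.mul_sum]
        _ = 0 := by simp [h2]
    have h3 : ∀ j : Fin L, ∏ i, (c i * θ i ^ (j : ℕ)) ^ ((e k) i : ℕ)
        = (∏ i, c i ^ ((e k) i : ℕ)) * ω k ^ (j : ℕ) := by
      intro j
      show _ = _ * (∏ i, θ i ^ ((e k) i : ℕ)) ^ (j : ℕ)
      rw [← Finset.prod_pow, ← Finset.prod_mul_distrib]
      apply Finset.prod_congr rfl
      intro i _
      rw [mul_pow, ← pow_mul, ← pow_mul, mul_comm (j : ℕ)]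
    have hC : (∏ i, c i ^ ((e k) i : ℕ)) ≠ 0 :=
      Finset.prod_ne_zero_iff.2 (fun i _ => pow_ne_zero _ (hc i))
    have h4 : (∏ i, c i ^ ((e k) i : ℕ)) * ∑ j : Fin L, ω k ^ (j : ℕ) * v j = 0 := by
      rw [← h1, Finset.mul_sum]
      apply Finset.sum_congr rfl
      intro j _
      rw [h3 j]
      ring
    have h5 : ∑ j : Fin L, ω k ^ (j : ℕ) * v j = 0 := by
      rcases mul_eq_zero.1 h4 with h | h
      · exact absurd h hC
      · exact h
    simpa [Matrix.mulVec, dotProduct, Matrix.vandermonde_apply] using h5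
  -- a nonzero term
  obtain ⟨τ, hτ⟩ : ∃ τ : Equiv.Perm (Fin L), ∏ k, M (τ k) k ≠ 0 := by
    by_contra hcon
    push Not at hcon
    apply hdet
    rw [Matrix.det_apply]
    apply Finset.sum_eq_zero
    intro τ _
    rw [hcon τ, smul_zero]
  refine ⟨τ.symm.trans e, ?_⟩
  intro j i hji
  have h1 : M (τ (τ.symm j)) (τ.symm j) ≠ 0 := by
    have := Finset.prod_ne_zero_iff.1 hτ (τ.symm j) (mem_univ _)
    exact this
  rw [Equiv.apply_symm_apply] at h1
  have h2 : psi (c i * θ i ^ (j : ℕ)) ((e (τ.symm j)) i) ≠ 0 :=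
    Finset.prod_ne_zero_iff.1 h1 i (mem_univ _)
  rw [hji] at h2
  exact psi_one_ne h2

end Pool.Agent.Q239.MN
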